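import Pool.Agent.Helper864_WL.Stmt

set_option autoImplicit false

namespace Pool.Agent.Results.MP_3e91a1_nt.ArtinDefectBound

open Pool.Agent.Helper864WL NumberField Module

theorem result {p : ℕ} [Fact p.Prime] {K Ω : Type} [Field K] [NumberField K] [Field Ω]
    [Algebra K Ω] [IsAlgClosure K Ω] {Kinf : IntermediateField K Ω}
    (hK : IsZpExtension p Kinf) (hl : ¬ IsLifted p Kinf)
    {d : ℕ} {ρ : ArtinRep p K Ω d} (hρ : ρ.Irreducible)
    {w : InfinitePlace K → InfinitePlace Ω} (hw : PlacesAbove w) :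
    ∃ C : ℕ, ∀ E : IntermediateField K Ω, E ≤ Kinf → FiniteDimensional K E →
      ρ.DefectLE E (ρ.arch w ^ 2 / (ρ.arch w + finrank ℚ K * d) * finrank K E + C) :=
  artin_main hK hl hρ hw

end Pool.Agent.Results.MP_3e91a1_nt.ArtinDefectBound
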