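import Pool.Agent.Helper864_OP.Stmt

set_option autoImplicit false

namespace Pool.Agent.Results.MP_3e91a1_nt.OpenLocus

open Pool.Agent.Helper864OP NumberField IsDedekindDomain

theorem result {p : ℕ} [Fact p.Prime] {K Ω : Type} [Field K] [NumberField K] [Field Ω]
    [Algebra K Ω] [IsAlgClosure K Ω] {S : Set (HeightOneSpectrum (𝓞 K))} (hS : S.Finite)
    {F : PadicField p} {d : ℕ} {ρ : IntRep (GKS K Ω S) F d} {φ : ZpExt p (GKS K Ω S)}
    (h : ρ.WeakLeopoldt φ) :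
    ∃ n : ℕ, ∀ (F' : PadicField p) (d' : ℕ) (ρ' : IntRep (GKS K Ω S) F' d')
      (φ' : ZpExt p (GKS K Ω S)),
      φ.SameLayer φ' n → ρ.CongruentMod ρ' n → ρ'.WeakLeopoldt φ' :=
  open_main hS h

end Pool.Agent.Results.MP_3e91a1_nt.OpenLocus
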